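import Mathlib

/-!
# Strong surjectivity is preserved by deleting one point

Q1 asks whether `L ∖ {x}` is strongly surjective for every strongly surjective linear order `L` and
every `x ∈ L`. The answer is yes.

Let `K ⊆ L ∖ {x}` and let `f : L → K` be a monotone surjection. We may assume that `x` is the only
point which is mapped to `y = f x`. As `x ∉ K`, we have `y ≠ x`, say `y < x`. Let `M` be the set of
all `m ∈ K` with `m ≤ y` and all `m ∈ L` with `x ≤ m`, and `p : M → K` be the identity on the first
part and `f` on the second one. There is a monotone surjection `g : L → M`. Then `q = p ∘ g` is a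
monotone surjection of `L` onto `K` with at least two points mapped to `y`. We may assume that `x` is
the only point mapped to `w = q x`, and so `w ≠ y`. Say `y < w`; then `min (q z) y` for `z < x` and `f z` for
`z > x` defines a monotone surjection of `L ∖ {x}` onto `K`.
-/

set_option autoImplicit false

open Set

namespace Pool.Agent.Results.MP_6d87e8_lc.DeletePoint

universe u

/-- There is a surjection from `L` onto `K` which is order-preserving in the weak sense. -/
def MapsOnto (L K : Type u) [LinearOrder L] [LinearOrder K] : Prop :=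
  ∃ f : L → K, Monotone f ∧ Function.Surjective f

/-- `L` is strongly surjective: it maps onto each of its nonempty suborders. -/
def StronglySurjective (L : Type u) [LinearOrder L] : Prop :=
  ∀ K : Set L, K.Nonempty → MapsOnto L K

section

variable {L K : Type u} [LinearOrder L] [LinearOrder K]

/-- If `f` does not isolate `x` then the restriction of `f` is onto. -/
theorem of_not_isolated {x : L} (f : L → K) (hf : Monotone f) (hs : Function.Surjective f)
    (h : ∃ z, z ≠ x ∧ f z = f x) : MapsOnto {z : L // z ≠ x} K := by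
  refine ⟨fun z => f z, fun a b hab => hf hab, ?_⟩
  intro k
  obtain ⟨z, rfl⟩ := hs k
  by_cases hz : z = x
  · obtain ⟨z', hz', h'⟩ := h
    exact ⟨⟨z', hz'⟩, by rw [hz]; exact h'⟩
  · exact ⟨⟨z, hz⟩, rfl⟩

/-- Two surjections with different values at `x`. -/
theorem of_two {x : L} (f q : L → K) (hf : Monotone f) (hfs : Function.Surjective f)
    (hq : Monotone q) (hqs : Function.Surjective q)
    (hlt : f x < q x) : MapsOnto {z : L // z ≠ x} K := by
  classical
  refine ⟨fun z => if (z : L) < x then min (q z) (f x) else f z, ?_, ?_⟩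
  · intro a b hab
    have hab' : (a : L) ≤ b := hab
    dsimp only
    by_cases hb : (b : L) < x
    · have ha : (a : L) < x := lt_of_le_of_lt hab' hb
      rw [if_pos ha, if_pos hb]
      exact min_le_min_right _ (hq hab')
    · rw [if_neg hb]
      by_cases ha : (a : L) < x
      · rw [if_pos ha]
        exact (min_le_right _ _).trans (hf (not_lt.1 hb))
      · rw [if_neg ha]
        exact hf hab'
  · intro k
    rcases le_or_gt k (f x) with hk | hk
    · obtain ⟨z, hz⟩ := hqs k
      have hzx : z < x := by
        by_contra hcon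
        have := hq (not_lt.1 hcon)
        rw [hz] at this
        exact absurd (lt_of_le_of_lt hk hlt) (not_lt.2 this)
      refine ⟨⟨z, hzx.ne⟩, ?_⟩
      dsimp only
      rw [if_pos hzx, hz, min_eq_left hk]
    · obtain ⟨z, hz⟩ := hfs k
      have hzx : x < z := by
        by_contra hcon
        have := hf (not_lt.1 hcon)
        rw [hz] at this
        exact absurd hk (not_lt.2 this)
      refine ⟨⟨z, hzx.ne'⟩, ?_⟩
      dsimp only
      rw [if_neg (not_lt.2 hzx.le), hz]

/-- If there is a monotone surjection `f` and another one for which the fibre of `f x` is not a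
singleton, then `L ∖ {x}` maps onto `K`. -/
theorem of_fibre {x : L} (f q : L → K) (hf : Monotone f) (hfs : Function.Surjective f)
    (hq : Monotone q) (hqs : Function.Surjective q)
    (h : ∃ z z', z ≠ z' ∧ q z = f x ∧ q z' = f x) : MapsOnto {z : L // z ≠ x} K := by
  by_cases h1 : ∃ z, z ≠ x ∧ f z = f x
  · exact of_not_isolated f hf hfs h1
  by_cases h2 : ∃ z, z ≠ x ∧ q z = q x
  · exact of_not_isolated q hq hqs h2
  push Not at h2
  have hq' : ∀ z, q z = q x → z = x := fun z hz => by
    by_contra hne
    exact h2 z hne hz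
  have hne : f x ≠ q x := by
    intro heq
    obtain ⟨z, z', hzz, hz, hz'⟩ := h
    rw [heq] at hz hz'
    exact hzz ((hq' z hz).trans (hq' z' hz').symm)
  rcases lt_or_gt_of_ne hne with hlt | hlt
  · exact of_two f q hf hfs hq hqs hlt
  · exact of_two q f hq hqs hf hfs hlt

end

/-- The suborder `K` of `L ∖ {x}` as a set of elements of `L`. -/
theorem mapsOnto_of_subset {L : Type u} [LinearOrder L] (hL : StronglySurjective L) (x : L)
    (K : Set L) (hK : K.Nonempty) (hxK : x ∉ K) : MapsOnto {z : L // z ≠ x} K := by
  classical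
  obtain ⟨f, hf, hfs⟩ := hL K hK
  have hne : (f x : L) ≠ x := fun h => hxK (h ▸ (f x).2)
  rcases lt_or_gt_of_ne hne with hlt | hlt
  · -- the case `f x < x`
    let M : Set L := {m | (m ∈ K ∧ m ≤ f x) ∨ x ≤ m}
    obtain ⟨g, hg, hgs⟩ := hL M ⟨x, Or.inr le_rfl⟩
    let p : M → K := fun m => if h : x ≤ (m : L) then f m else ⟨m, (m.2.resolve_right h).1⟩
    have hp : Monotone p := by
      intro a b hab
      have hab' : (a : L) ≤ b := hab
      by_cases ha : x ≤ (a : L)
      · have hb : x ≤ (b : L) := ha.trans hab'
        simp only [p, dif_pos ha, dif_pos hb]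
        exact hf hab'
      · by_cases hb : x ≤ (b : L)
        · simp only [p, dif_neg ha, dif_pos hb]
          have h1 : (a : L) ≤ f x := (a.2.resolve_right ha).2
          have h2 : f x ≤ f b := hf hb
          exact h1.trans h2
        · simp only [p, dif_neg ha, dif_neg hb]
          exact hab'
    have hpy : ∀ (k : K), (k : L) ≤ f x → ∃ m : M, (m : L) = k ∧ p m = k := by
      intro k hk
      refine ⟨⟨k, Or.inl ⟨k.2, hk⟩⟩, rfl, ?_⟩
      have : ¬ x ≤ (k : L) := not_le.2 (lt_of_le_of_lt hk hlt)
      simp only [p, dif_neg this]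
    have hps : Function.Surjective p := by
      intro k
      rcases le_or_gt (k : L) (f x) with hk | hk
      · obtain ⟨m, -, hm⟩ := hpy k hk
        exact ⟨m, hm⟩
      · obtain ⟨z, hz⟩ := hfs k
        have hxz : x ≤ z := by
          by_contra hcon
          have : f z ≤ f x := hf (not_le.1 hcon).le
          rw [hz] at this
          exact absurd hk (not_lt.2 this)
        refine ⟨⟨z, Or.inr hxz⟩, ?_⟩
        simp only [p, dif_pos hxz, hz]
    apply of_fibre f (fun z => p (g z)) hf hfs (hp.comp hg) (hps.comp hgs)
    obtain ⟨m, hm, hpm⟩ := hpy (f x) le_rfl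
    obtain ⟨z, hz⟩ := hgs m
    obtain ⟨z', hz'⟩ := hgs ⟨x, Or.inr le_rfl⟩
    refine ⟨z, z', ?_, ?_, ?_⟩
    · rintro rfl
      rw [hz] at hz'
      rw [hz'] at hm
      exact hne hm.symm
    · show p (g z) = f x
      rw [hz, hpm]
    · show p (g z') = f x
      rw [hz']
      simp only [p, le_refl, dif_pos]
  · -- the case `x < f x`
    let M : Set L := {m | (m ∈ K ∧ f x ≤ m) ∨ m ≤ x}
    obtain ⟨g, hg, hgs⟩ := hL M ⟨x, Or.inr le_rfl⟩
    let p : M → K := fun m => if h : (m : L) ≤ x then f m else ⟨m, (m.2.resolve_right h).1⟩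
    have hp : Monotone p := by
      intro a b hab
      have hab' : (a : L) ≤ b := hab
      by_cases hb : (b : L) ≤ x
      · have ha : (a : L) ≤ x := hab'.trans hb
        simp only [p, dif_pos ha, dif_pos hb]
        exact hf hab'
      · by_cases ha : (a : L) ≤ x
        · simp only [p, dif_neg hb, dif_pos ha]
          have h1 : (f x : L) ≤ b := (b.2.resolve_right hb).2
          have h2 : f a ≤ f x := hf ha
          have h2' : (f a : L) ≤ f x := h2
          exact h2'.trans h1
        · simp only [p, dif_neg ha, dif_neg hb]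
          exact hab'
    have hpy : ∀ (k : K), (f x : L) ≤ k → ∃ m : M, (m : L) = k ∧ p m = k := by
      intro k hk
      refine ⟨⟨k, Or.inl ⟨k.2, hk⟩⟩, rfl, ?_⟩
      have : ¬ (k : L) ≤ x := not_le.2 (lt_of_lt_of_le hlt hk)
      simp only [p, dif_neg this]
    have hps : Function.Surjective p := by
      intro k
      rcases le_or_gt (f x : L) k with hk | hk
      · obtain ⟨m, -, hm⟩ := hpy k hk
        exact ⟨m, hm⟩
      · obtain ⟨z, hz⟩ := hfs k
        have hxz : z ≤ x := by
          by_contra hcon
          have : f x ≤ f z := hf (not_le.1 hcon).le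
          rw [hz] at this
          exact absurd hk (not_lt.2 this)
        refine ⟨⟨z, Or.inr hxz⟩, ?_⟩
        simp only [p, dif_pos hxz, hz]
    apply of_fibre f (fun z => p (g z)) hf hfs (hp.comp hg) (hps.comp hgs)
    obtain ⟨m, hm, hpm⟩ := hpy (f x) le_rfl
    obtain ⟨z, hz⟩ := hgs m
    obtain ⟨z', hz'⟩ := hgs ⟨x, Or.inr le_rfl⟩
    refine ⟨z, z', ?_, ?_, ?_⟩
    · rintro rfl
      rw [hz] at hz'
      rw [hz'] at hm
      exact hne hm.symm
    · show p (g z) = f x
      rw [hz, hpm]
    · show p (g z') = f x
      rw [hz']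
      simp only [p, le_refl, dif_pos]

/-- **Main theorem.** If `L` is strongly surjective then so is `L ∖ {x}`. -/
theorem result (L : Type u) [LinearOrder L] (hL : StronglySurjective L) (x : L) :
    StronglySurjective {z : L // z ≠ x} := by
  intro K hK
  obtain ⟨f, hf, hfs⟩ := mapsOnto_of_subset hL x (Subtype.val '' K) (hK.image _) (by
    rintro ⟨z, -, hz⟩
    exact z.2 hz)
  -- the suborder `K` and its image in `L` are isomorphic
  have hmem : ∀ k : (Subtype.val '' K : Set L), ∃ k' : K, ((k' : {z : L // z ≠ x}) : L) = k := by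
    rintro ⟨_, k, hk, rfl⟩
    exact ⟨⟨k, hk⟩, rfl⟩
  choose r hr using hmem
  refine ⟨fun z => r (f z), ?_, ?_⟩
  · intro a b hab
    have h1 : f a ≤ f b := hf hab
    have h2 : ((f a : (Subtype.val '' K : Set L)) : L) ≤ f b := h1
    rw [← hr, ← hr] at h2
    exact h2
  · intro k
    obtain ⟨z, hz⟩ := hfs ⟨((k : {z : L // z ≠ x}) : L), k, k.2, rfl⟩
    refine ⟨z, ?_⟩
    apply Subtype.ext
    apply Subtype.ext
    show ((r (f z) : {z : L // z ≠ x}) : L) = _
    rw [hr, hz]

end Pool.Agent.Results.MP_6d87e8_lc.DeletePoint
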